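import Pool.Agent.H929.BG.Stm

/-!
# BG-FinE: the last step for one group of points, emptiness
-/

set_option autoImplicit false

namespace Pool.Agent.H333.BG

open Finset Pool.Agent.TH3.IR Pool.Agent.Y55.Col Pool.Agent.H929.BW Pool.Agent.H929.BG

theorem sum_rep (r m : ℕ) : ∑ _i : Fin r, Multiset.replicate 1 m = Multiset.replicate r m := by
  rw [Finset.sum_const, Finset.card_univ, Fintype.card_fin, Multiset.nsmul_replicate, mul_one]

theorem t_FinE : S_FinE := by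
  intro n Λ hn hΛ
  obtain ⟨b, hb⟩ : ∃ b : ℝ, b = 1 + (n : ℝ) / 2 := ⟨_, rfl⟩
  have hb1 : 1 ≤ b := by
    rw [hb]
    have : (0 : ℝ) ≤ (n : ℝ) / 2 := by positivity
    linarith
  have hb0 : 0 < b := by linarith
  obtain ⟨c, hc⟩ : ∃ c : ℝ, c = 3 ^ (n + 2) * (24 * (b + Λ)) * ((n + 1) * b ^ n * (n / 2)) :=
    ⟨_, rfl⟩
  have hc0 : 0 ≤ c := by
    rw [hc]
    have : 0 ≤ b + Λ := by linarith
    positivity
  refine ⟨c + 1, ?_⟩
  intro C hC m r β H hm hβ hβ' hH hH' hr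
  have hm1 : (1 : ℝ) ≤ m := by exact_mod_cast hm
  have hm0 : (0 : ℝ) < m := by linarith
  obtain ⟨g, hg⟩ : ∃ g : ℝ, g = gg n m := ⟨_, rfl⟩
  have hmg : (m : ℝ) ≤ g := by rw [hg]; exact le_gg n m
  have hgm : g ≤ m + n / 2 := by rw [hg]; exact gg_le n m
  rw [← hg] at hH hH' hr
  have hg0 : 0 < g := by linarith
  have hHp : 0 < H := by linarith
  have hHn : 0 < H ^ n := pow_pos hHp n
  have hCH : 0 ≤ C * H ^ n := mul_nonneg (by linarith) hHn.le
  have hgN : 0 < g ^ (n + 1) := pow_pos hg0 _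
  have hmN : 0 < (m : ℝ) ^ (n + 1) := pow_pos hm0 _
  refine ⟨Fin r, inferInstance, fun _ => m, fun _ => Multiset.replicate 1 m, ?_,
    fun _ => Pool.Agent.H980.BW.emp_one _ _, (sum_rep r m).le⟩
  refine Pool.Agent.H980.BW.piece t_NODE hβ ?_ hHp ?_
  · have h3 : (2 * g) ^ (n + 1) ≤ H ^ (n + 1) := pow_le_pow_left₀ (by linarith) (by linarith) _
    have h4 : β * (2 * g) ^ (n + 1) ≤ β * H ^ (n + 1) :=
      mul_le_mul_of_nonneg_left h3 (by linarith)
    have h5 : (2 ^ (n + 1) * β) * g ^ (n + 1) ≤ r * g ^ (n + 1) := by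
      rw [mul_pow] at h4
      have h6 : 2 ^ (n + 1) * β * g ^ (n + 1) = β * (2 ^ (n + 1) * g ^ (n + 1)) := by ring
      rw [h6]
      linarith
    exact le_of_mul_le_mul_right h5 hgN
  · -- the main inequality
    have hgb : g ≤ b * m := by
      rw [hb]
      have : (n : ℝ) / 2 ≤ n / 2 * m := le_mul_of_one_le_right (by positivity) hm1
      linarith
    have hgb2 : g + Λ ≤ (b + Λ) * m := by
      have : Λ ≤ Λ * m := le_mul_of_one_le_right (by linarith) hm1
      linarith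
    have h1 : g ^ (n + 1) - (m : ℝ) ^ (n + 1) ≤ (n + 1) * g ^ n * (g - m) :=
      Pool.Agent.H980.BW.pow_sub_le hm0.le hmg n
    have h2 : (n + 1) * g ^ n * (g - m) ≤ (n + 1) * (b * m) ^ n * (n / 2) := by
      refine mul_le_mul ?_ (by linarith) (by linarith) (by positivity)
      refine mul_le_mul_of_nonneg_left ?_ (by positivity)
      exact pow_le_pow_left₀ hg0.le hgb n
    have h3 : β * H ^ (n + 1) ≤ 3 ^ (n + 2) * (24 * ((b + Λ) * m)) * H ^ n := by
      have h4 : β * H ^ (n + 1) = β * H * H ^ n := by ring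
      rw [h4]
      refine mul_le_mul_of_nonneg_right ?_ hHn.le
      exact mul_le_mul hβ' (by linarith) hHp.le (by positivity)
    have h5 : 0 ≤ g ^ (n + 1) - (m : ℝ) ^ (n + 1) :=
      sub_nonneg.2 (pow_le_pow_left₀ hm0.le hmg _)
    have h6 : β * H ^ (n + 1) * (g ^ (n + 1) - (m : ℝ) ^ (n + 1)) ≤
        c * H ^ n * (m : ℝ) ^ (n + 1) := by
      calc β * H ^ (n + 1) * (g ^ (n + 1) - (m : ℝ) ^ (n + 1))
          ≤ (3 ^ (n + 2) * (24 * ((b + Λ) * m)) * H ^ n) *
              ((n + 1) * (b * m) ^ n * (n / 2)) := by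
            refine mul_le_mul h3 (h1.trans h2) h5 ?_
            have : 0 ≤ b + Λ := by linarith
            positivity
        _ = c * H ^ n * (m : ℝ) ^ (n + 1) := by
            rw [hc]
            ring
    have h7 : c * H ^ n * (m : ℝ) ^ (n + 1) < C * H ^ n * (m : ℝ) ^ (n + 1) := by
      refine mul_lt_mul_of_pos_right ?_ hmN
      exact mul_lt_mul_of_pos_right (by linarith) hHn
    have h8 : (β * H ^ (n + 1) + C * H ^ n) * (m : ℝ) ^ (n + 1) ≤
        r * g ^ (n + 1) * (m : ℝ) ^ (n + 1) := mul_le_mul_of_nonneg_right hr hmN.le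
    have h9 : β * H ^ (n + 1) * g ^ (n + 1) < (r * (m : ℝ) ^ (n + 1)) * g ^ (n + 1) := by
      have e1 : β * H ^ (n + 1) * g ^ (n + 1) =
          β * H ^ (n + 1) * (g ^ (n + 1) - (m : ℝ) ^ (n + 1)) +
            β * H ^ (n + 1) * (m : ℝ) ^ (n + 1) := by ring
      have e2 : (r * (m : ℝ) ^ (n + 1)) * g ^ (n + 1) = r * g ^ (n + 1) * (m : ℝ) ^ (n + 1) := by
        ring
      have e3 : (β * H ^ (n + 1) + C * H ^ n) * (m : ℝ) ^ (n + 1) =
          β * H ^ (n + 1) * (m : ℝ) ^ (n + 1) + C * H ^ n * (m : ℝ) ^ (n + 1) := by ring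
      rw [e1, e2]
      rw [e3] at h8
      linarith
    exact lt_of_mul_lt_mul_right h9 hgN.le

end Pool.Agent.H333.BG
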