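import Pool.Agent.H354.BG.Stm

set_option autoImplicit false

/-! Project BG of helper354, task R3: `P3` is decidable. -/

namespace Pool.Agent.H333.BG.R3

open Pool.Agent.H354.BG
open Pool.Agent.H482R3.EA (W inv ev)
open Pool.Agent.H482R3.EB (tot wp AR gR)

/-! ### the algebraic part -/

section alg

variable (D : Dat) (U : Finset (Fin D.r))

/-- the retraction of `v^j h₁ v^i h₂` -/
theorem rho_prod {v : Fin D.n} (hv : D.β v ∉ U) {h₁ h₂ : D.A} (m₁ : h₁ ∈ par D U)
    (m₂ : h₂ ∈ par D U) {u : W (Fin D.n)} {j i : ℤ}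
    (e : rho D (insert (D.β v) U) (gEl D u) = gR D.m v ^ j * h₁ * gR D.m v ^ i * h₂) :
    rho D U (gEl D u) = h₁ * h₂ := by
  have h := congrArg (rho D U) e
  rw [rho_rho_sub D (Finset.subset_insert _ _), map_mul, map_mul, map_mul,
    rho_zpow_out D hv, rho_zpow_out D hv, rho_of_par D m₁, rho_of_par D m₂, one_mul, mul_one] at h
  exact h

theorem comm_z {v : Fin D.n} {h : D.A} (hh : h ∈ par D (pZ D U (D.β v))) (i : ℤ) :
    gR D.m v ^ i * h = h * gR D.m v ^ i := ((comm_pZ D U v h hh).zpow_left i).eq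

theorem P3_P2 {v : Fin D.n} {u : W (Fin D.n)} (h : P3 D U (D.β v) u v) : P2 D U (D.β v) u v := by
  obtain ⟨j, i, e⟩ := h
  exact ⟨j, i, rho D U (gEl D u), 1, rho_mem D U _, Subgroup.one_mem _, by rw [e, mul_one]⟩

theorem not_P3 {v : Fin D.n} (hv : D.β v ∉ U) (hNS : NSok D U (D.β v)) {h₁ h₂ : D.A}
    (m₁ : h₁ ∈ par D U) (m₂ : h₂ ∈ par D U) {u : W (Fin D.n)} {j i : ℤ}
    (e : rho D (insert (D.β v) U) (gEl D u) = gR D.m v ^ j * h₁ * gR D.m v ^ i * h₂)
    (hi : i ≠ 0) (n₁ : h₁ ∉ par D (pZ D U (D.β v))) (n₂ : h₂ ∉ par D (pZ D U (D.β v))) :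
    ¬ P3 D U (D.β v) u v := by
  rintro ⟨j', i', e'⟩
  rw [rho_prod D U hv m₁ m₂ e, e] at e'
  -- the exponents
  have hexp : j + i = j' + i' := by
    have h := congrArg (eg D (D.β v)) e'
    rw [eg_mul, eg_mul, eg_mul, eg_mul, eg_mul, eg_mul, eg_gR_zpow, eg_gR_zpow, eg_gR_zpow,
      eg_gR_zpow, eg_par D hv m₁, eg_par D hv m₂] at h
    linarith
  -- if `h₁` commutes with `v ^ i`
  have c₁ : h₁ * gR D.m v ^ i = gR D.m v ^ i * h₁ → False := by
    intro hc
    refine n₁ (hNS.1 v h₁ (-i) rfl m₁ (neg_ne_zero.2 hi) ?_)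
    rw [neg_neg, mul_assoc (gR D.m v ^ (-i)), hc, ← mul_assoc, ← zpow_add, neg_add_cancel,
      zpow_zero, one_mul, mul_inv_cancel]
  by_cases h0 : i' = 0
  · apply c₁
    have h1 : j' = j + i := by omega
    rw [h0, zpow_zero, mul_one, h1, zpow_add] at e'
    have h2 : gR D.m v ^ j * (h₁ * gR D.m v ^ i) * h₂ =
        gR D.m v ^ j * (gR D.m v ^ i * h₁) * h₂ := by
      calc gR D.m v ^ j * (h₁ * gR D.m v ^ i) * h₂ = gR D.m v ^ j * h₁ * gR D.m v ^ i * h₂ := by
            group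
        _ = gR D.m v ^ j * gR D.m v ^ i * (h₁ * h₂) := e'
        _ = gR D.m v ^ j * (gR D.m v ^ i * h₁) * h₂ := by group
    exact mul_left_cancel (mul_right_cancel h2)
  by_cases h1 : j = j'
  · have h2 : i = i' := by omega
    rw [← h1, ← h2] at e'
    refine n₂ (hNS.1 v h₂ i rfl m₂ hi ?_)
    have h3 : (gR D.m v ^ j * h₁) * (gR D.m v ^ i * h₂) =
        (gR D.m v ^ j * h₁) * (h₂ * gR D.m v ^ i) := by
      calc (gR D.m v ^ j * h₁) * (gR D.m v ^ i * h₂) = gR D.m v ^ j * h₁ * gR D.m v ^ i * h₂ := by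
            group
        _ = gR D.m v ^ j * (h₁ * h₂) * gR D.m v ^ i := e'
        _ = (gR D.m v ^ j * h₁) * (h₂ * gR D.m v ^ i) := by group
    have h4 := mul_left_cancel h3
    rw [h4, mul_assoc h₂, ← zpow_add, add_neg_cancel, zpow_zero, mul_one, mul_inv_cancel]
  · have h2 : gR D.m v ^ (j - j') * h₁ * gR D.m v ^ i * h₂ * gR D.m v ^ (-i') * (h₁ * h₂)⁻¹ =
        1 := by
      have h3 : gR D.m v ^ (j - j') = (gR D.m v ^ j')⁻¹ * gR D.m v ^ j := by
        rw [← zpow_neg, ← zpow_add]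
        congr 1
        ring
      calc gR D.m v ^ (j - j') * h₁ * gR D.m v ^ i * h₂ * gR D.m v ^ (-i') * (h₁ * h₂)⁻¹
          = (gR D.m v ^ j')⁻¹ * (gR D.m v ^ j * h₁ * gR D.m v ^ i * h₂) * gR D.m v ^ (-i') *
              (h₁ * h₂)⁻¹ := by rw [h3]; group
        _ = (gR D.m v ^ j')⁻¹ * (gR D.m v ^ j' * (h₁ * h₂) * gR D.m v ^ i') *
              gR D.m v ^ (-i') * (h₁ * h₂)⁻¹ := by rw [e']
        _ = 1 := by group
    rcases hNS.2 v h₁ h₂ (h₁ * h₂)⁻¹ (j - j') i (-i') rfl m₁ m₂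
      (Subgroup.inv_mem _ (Subgroup.mul_mem _ m₁ m₂)) (sub_ne_zero.2 h1) hi (neg_ne_zero.2 h0) h2
      with h | h | h
    · exact n₁ h
    · exact n₂ h
    · have h' : h₁ * h₂ ∈ par D (pZ D U (D.β v)) := by
        have := Subgroup.inv_mem _ h
        rwa [inv_inv] at this
      apply c₁
      have h3 := comm_z D U h' i'
      have h5 : gR D.m v ^ j * (h₁ * gR D.m v ^ i) * h₂ =
          gR D.m v ^ j * (gR D.m v ^ i * h₁) * h₂ := by
        calc gR D.m v ^ j * (h₁ * gR D.m v ^ i) * h₂ = gR D.m v ^ j * h₁ * gR D.m v ^ i * h₂ := by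
              group
          _ = gR D.m v ^ j' * ((h₁ * h₂) * gR D.m v ^ i') := by rw [e', mul_assoc]
          _ = gR D.m v ^ j' * (gR D.m v ^ i' * (h₁ * h₂)) := by rw [h3]
          _ = gR D.m v ^ (j' + i') * (h₁ * h₂) := by rw [zpow_add, mul_assoc]
          _ = gR D.m v ^ (j + i) * (h₁ * h₂) := by rw [hexp]
          _ = gR D.m v ^ j * (gR D.m v ^ i * h₁) * h₂ := by rw [zpow_add]; group
      exact mul_left_cancel (mul_right_cancel h5)

theorem neg_iff {v : Fin D.n} (hv : D.β v ∉ U) (hNS : NSok D U (D.β v)) (u : W (Fin D.n)) :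
    ¬ P3 D U (D.β v) u v ↔ (¬ P2 D U (D.β v) u v ∨ ∃ (j i : ℤ) (h₁ h₂ : D.A), h₁ ∈ par D U ∧
      h₂ ∈ par D U ∧ rho D (insert (D.β v) U) (gEl D u) =
        gR D.m v ^ j * h₁ * gR D.m v ^ i * h₂ ∧ i ≠ 0 ∧ h₁ ∉ par D (pZ D U (D.β v)) ∧
      h₂ ∉ par D (pZ D U (D.β v))) := by
  constructor
  · intro h3
    by_cases h2 : P2 D U (D.β v) u v
    · right
      obtain ⟨j, i, h₁, h₂, m₁, m₂, e⟩ := h2
      have hr := rho_prod D U hv m₁ m₂ e
      refine ⟨j, i, h₁, h₂, m₁, m₂, e, ?_, ?_, ?_⟩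
      · rintro rfl
        refine h3 ⟨j, 0, ?_⟩
        rw [e, hr]
        group
      · intro hz
        refine h3 ⟨j + i, 0, ?_⟩
        rw [e, hr, zpow_add, zpow_zero, mul_one, mul_assoc (gR D.m v ^ j) h₁,
          ← comm_z D U hz i]
        group
      · intro hz
        refine h3 ⟨j, i, ?_⟩
        rw [e, hr, mul_assoc (gR D.m v ^ j * h₁), comm_z D U hz i]
        group
    · exact Or.inl h2
  · rintro (h2 | ⟨j, i, h₁, h₂, m₁, m₂, e, hi, n₁, n₂⟩)
    · exact fun h3 => h2 (P3_P2 D U h3)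
    · exact not_P3 D U hv hNS m₁ m₂ e hi n₁ n₂

end alg

/-! ### the computability part -/

section comp

theorem comp_pred {α β : Type} [Primcodable α] [Primcodable β] {p : β → Prop} {f : α → β}
    (hp : ComputablePred p) (hf : Computable f) : ComputablePred fun x => p (f x) := by
  obtain ⟨g, hg, rfl⟩ := ComputablePred.computable_iff.1 hp
  exact ComputablePred.computable_iff.2 ⟨fun x => g (f x), hg.comp hf, rfl⟩

theorem and_pred {α : Type} [Primcodable α] {p q : α → Prop} (hp : ComputablePred p)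
    (hq : ComputablePred q) : ComputablePred fun x => p x ∧ q x :=
  (Pool.Agent.H482R3.EB.Asm.cp α inferInstance 0).1 p q hp hq

theorem or_pred {α : Type} [Primcodable α] {p q : α → Prop} (hp : ComputablePred p)
    (hq : ComputablePred q) : ComputablePred fun x => p x ∨ q x :=
  (Pool.Agent.H482R3.EB.Asm.cp α inferInstance 0).2.1 p q hp hq

theorem app {α β : Type} [Primcodable α] [Primcodable β] {f g : α → List β}
    (hf : Computable f) (hg : Computable g) : Computable fun x => f x ++ g x :=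
  (Primrec.list_append.to_comp).comp hf hg

theorem block_pred (D : Dat) (b : Fin D.r) :
    ComputablePred fun v : Fin D.n => D.β v = b := by
  have h : PrimrecPred fun v : Fin D.n => D.β v = b :=
    Primrec.eq.comp (Primrec.dom_finite D.β) (Primrec.const b)
  exact h.computablePred

theorem int_diff (j : ℤ) : ∃ a : ℕ × ℕ, (a.1 : ℤ) - (a.2 : ℤ) = j :=
  ⟨(j.toNat, (-j).toNat), Int.toNat_sub_toNat_neg j⟩

/-- the pairs of naturals with nonzero difference -/
theorem diff_pred : ComputablePred fun a : ℕ × ℕ => (a.1 : ℤ) - (a.2 : ℤ) ≠ 0 := by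
  have h : PrimrecPred fun a : ℕ × ℕ => a.1 ≠ a.2 :=
    (Primrec.eq.comp Primrec.fst Primrec.snd).not
  exact h.computablePred.of_eq fun a => by
    constructor
    · intro h1 h2; exact h1 (by omega)
    · intro h1 h2; exact h1 (by omega)

end comp

theorem t_R3 (hbas : S_BASX) (hre : S_REU) : S_R3 := by
  intro D U b hb hNS hW hW' hR2
  obtain ⟨binv, bflt, bwp, _⟩ := hbas D
  unfold R3ok
  rw [ComputablePred.computable_iff_re_compl_re']
  have rex := @Pool.Agent.H482R3.EB.Asm.rex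
  constructor
  · -- `P3` is r.e.
    have e : ∀ x : W (Fin D.n) × Fin D.n, (∃ y : (ℕ × ℕ) × (ℕ × ℕ), D.β x.2 = b ∧
        rho D (insert b U) (gEl D (inv x.1 ++ (wp x.2 ((y.1.1 : ℤ) - (y.1.2 : ℤ)) ++
          (flt D U x.1 ++ wp x.2 ((y.2.1 : ℤ) - (y.2.2 : ℤ)))))) = 1) ↔
        (D.β x.2 = b ∧ P3 D U b x.1 x.2) := by
      rintro ⟨u, v⟩
      have key : ∀ j i : ℤ, D.β v = b → (rho D (insert b U) (gEl D (inv u ++ (wp v j ++
          (flt D U u ++ wp v i)))) = 1 ↔
          rho D (insert b U) (gEl D u) = gR D.m v ^ j * rho D U (gEl D u) * gR D.m v ^ i) := by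
        intro j i hv
        have hvm : D.β v ∈ insert b U := by rw [hv]; exact Finset.mem_insert_self _ _
        rw [gEl_append, gEl_append, gEl_append, gEl_inv, gEl_wp, gEl_wp, ← rho_gEl, map_mul,
          map_mul, map_mul, map_inv, rho_zpow_in D hvm, rho_zpow_in D hvm,
          rho_rho_sub' D (Finset.subset_insert _ _), inv_mul_eq_one, mul_assoc]
      constructor
      · rintro ⟨y, hv, hy⟩
        exact ⟨hv, _, _, (key _ _ hv).1 hy⟩
      · rintro ⟨hv, j, i, hy⟩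
        obtain ⟨a, ha⟩ := int_diff j
        obtain ⟨c, hc⟩ := int_diff i
        refine ⟨(a, c), hv, ?_⟩
        rw [ha, hc]
        exact (key _ _ hv).2 hy
    refine REPred.of_eq (rex (W (Fin D.n) × Fin D.n) ((ℕ × ℕ) × (ℕ × ℕ)) inferInstance
      inferInstance (fun x => D.β x.1.2 = b ∧
        rho D (insert b U) (gEl D (inv x.1.1 ++ (wp x.1.2 ((x.2.1.1 : ℤ) - (x.2.1.2 : ℤ)) ++
          (flt D U x.1.1 ++ wp x.1.2 ((x.2.2.1 : ℤ) - (x.2.2.2 : ℤ)))))) = 1) ?_) e
    have hu : Computable fun x : (W (Fin D.n) × Fin D.n) × ((ℕ × ℕ) × (ℕ × ℕ)) => x.1.1 :=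
      Computable.fst.comp Computable.fst
    have hv : Computable fun x : (W (Fin D.n) × Fin D.n) × ((ℕ × ℕ) × (ℕ × ℕ)) => x.1.2 :=
      Computable.snd.comp Computable.fst
    have hj : Computable fun x : (W (Fin D.n) × Fin D.n) × ((ℕ × ℕ) × (ℕ × ℕ)) => x.2.1 :=
      Computable.fst.comp Computable.snd
    have hi : Computable fun x : (W (Fin D.n) × Fin D.n) × ((ℕ × ℕ) × (ℕ × ℕ)) => x.2.2 :=
      Computable.snd.comp Computable.snd
    have h1 := bwp.comp (hv.pair hj)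
    have h2 := bwp.comp (hv.pair hi)
    have c1 := comp_pred (block_pred D b) hv
    have c2 := comp_pred hW' (app (binv.comp hu) (app h1 (app ((bflt U).comp hu) h2)))
    exact (and_pred c1 c2).to_re
  · -- the complement is r.e.
    have e : ∀ x : W (Fin D.n) × Fin D.n, (∃ y : ((ℕ × ℕ) × (ℕ × ℕ)) × (W (Fin D.n) × W (Fin D.n)),
        ¬ (D.β x.2 = b ∧ P2 D U b x.1 x.2) ∨ (D.β x.2 = b ∧
        (rho D (insert b U) (gEl D (inv x.1 ++ (wp x.2 ((y.1.1.1 : ℤ) - (y.1.1.2 : ℤ)) ++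
          (flt D U y.2.1 ++ (wp x.2 ((y.1.2.1 : ℤ) - (y.1.2.2 : ℤ)) ++ flt D U y.2.2))))) = 1 ∧
        (((y.1.2.1 : ℤ) - (y.1.2.2 : ℤ) ≠ 0) ∧
        (¬ rho D U (gEl D (inv (flt D (pZ D U b) y.2.1) ++ flt D U y.2.1)) = 1 ∧
        ¬ rho D U (gEl D (inv (flt D (pZ D U b) y.2.2) ++ flt D U y.2.2)) = 1))))) ↔
        ¬ (D.β x.2 = b ∧ P3 D U b x.1 x.2) := by
      rintro ⟨u, v⟩
      have key2 : ∀ y : W (Fin D.n),
          (¬ rho D U (gEl D (inv (flt D (pZ D U b) y) ++ flt D U y)) = 1) ↔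
          rho D U (gEl D y) ∉ par D (pZ D U b) := by
        intro y
        rw [gEl_append, gEl_inv, ← rho_gEl, ← rho_gEl, map_mul, map_inv,
          rho_rho_sub' D (pZ_sub D U b), rho_rho_sub D (Finset.Subset.refl U), inv_mul_eq_one,
          mem_par, rho_rho_sub D (pZ_sub D U b)]
      by_cases hv : D.β v = b
      · subst hv
        have hvm : D.β v ∈ insert (D.β v) U := Finset.mem_insert_self _ _
        have key : ∀ (j i : ℤ) (y₁ y₂ : W (Fin D.n)), (rho D (insert (D.β v) U)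
            (gEl D (inv u ++ (wp v j ++ (flt D U y₁ ++ (wp v i ++ flt D U y₂))))) = 1 ↔
            rho D (insert (D.β v) U) (gEl D u) =
              gR D.m v ^ j * rho D U (gEl D y₁) * gR D.m v ^ i * rho D U (gEl D y₂)) := by
          intro j i y₁ y₂
          rw [gEl_append, gEl_append, gEl_append, gEl_append, gEl_inv, gEl_wp, gEl_wp, ← rho_gEl,
            ← rho_gEl, map_mul, map_mul, map_mul, map_mul, map_inv, rho_zpow_in D hvm,
            rho_zpow_in D hvm, rho_rho_sub' D (Finset.subset_insert _ _),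
            rho_rho_sub' D (Finset.subset_insert _ _), inv_mul_eq_one, mul_assoc, mul_assoc]
        have hneg := neg_iff D U hb hNS u
        constructor
        · rintro ⟨y, hy | ⟨_, hy1, hy2, hy3, hy4⟩⟩
          · rintro ⟨_, h3⟩
            exact hy ⟨rfl, P3_P2 D U h3⟩
          · rintro ⟨_, h3⟩
            refine hneg.2 (Or.inr ⟨_, _, rho D U (gEl D y.2.1), rho D U (gEl D y.2.2),
              rho_mem D U _, rho_mem D U _, (key _ _ _ _).1 hy1, hy2, (key2 _).1 hy3,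
              (key2 _).1 hy4⟩) h3
        · intro h
          have h3 : ¬ P3 D U (D.β v) u v := fun h' => h ⟨rfl, h'⟩
          rcases hneg.1 h3 with h4 | ⟨j, i, h₁, h₂, m₁, m₂, e1, hi, n₁, n₂⟩
          · exact ⟨(((0, 0), (0, 0)), ([], [])), Or.inl fun h5 => h4 h5.2⟩
          · obtain ⟨a, ha⟩ := int_diff j
            obtain ⟨c, hc⟩ := int_diff i
            obtain ⟨y₁, hy₁⟩ := gEl_surj D h₁
            obtain ⟨y₂, hy₂⟩ := gEl_surj D h₂
            refine ⟨((a, c), (y₁, y₂)), Or.inr ⟨rfl, ?_, ?_, ?_, ?_⟩⟩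
            · show rho D (insert (D.β v) U) (gEl D (inv u ++ (wp v ((a.1 : ℤ) - (a.2 : ℤ)) ++
                (flt D U y₁ ++ (wp v ((c.1 : ℤ) - (c.2 : ℤ)) ++ flt D U y₂))))) = 1
              rw [ha, hc, key, hy₁, hy₂, rho_of_par D m₁, rho_of_par D m₂]
              exact e1
            · show (c.1 : ℤ) - (c.2 : ℤ) ≠ 0
              rw [hc]
              exact hi
            · refine (key2 y₁).2 ?_
              rw [hy₁, rho_of_par D m₁]
              exact n₁
            · refine (key2 y₂).2 ?_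
              rw [hy₂, rho_of_par D m₂]
              exact n₂
      · constructor
        · rintro _ ⟨h1, _⟩
          exact hv h1
        · intro _
          exact ⟨(((0, 0), (0, 0)), ([], [])), Or.inl fun h5 => hv h5.1⟩
    refine REPred.of_eq (rex (W (Fin D.n) × Fin D.n)
      (((ℕ × ℕ) × (ℕ × ℕ)) × (W (Fin D.n) × W (Fin D.n))) inferInstance inferInstance
      (fun x => ¬ (D.β x.1.2 = b ∧ P2 D U b x.1.1 x.1.2) ∨ (D.β x.1.2 = b ∧
        (rho D (insert b U) (gEl D (inv x.1.1 ++ (wp x.1.2 ((x.2.1.1.1 : ℤ) - (x.2.1.1.2 : ℤ)) ++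
          (flt D U x.2.2.1 ++ (wp x.1.2 ((x.2.1.2.1 : ℤ) - (x.2.1.2.2 : ℤ)) ++
            flt D U x.2.2.2))))) = 1 ∧
        (((x.2.1.2.1 : ℤ) - (x.2.1.2.2 : ℤ) ≠ 0) ∧
        (¬ rho D U (gEl D (inv (flt D (pZ D U b) x.2.2.1) ++ flt D U x.2.2.1)) = 1 ∧
        ¬ rho D U (gEl D (inv (flt D (pZ D U b) x.2.2.2) ++ flt D U x.2.2.2)) = 1))))) ?_) e
    have hu : Computable fun x : (W (Fin D.n) × Fin D.n) ×
        (((ℕ × ℕ) × (ℕ × ℕ)) × (W (Fin D.n) × W (Fin D.n))) => x.1.1 :=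
      Computable.fst.comp Computable.fst
    have hv : Computable fun x : (W (Fin D.n) × Fin D.n) ×
        (((ℕ × ℕ) × (ℕ × ℕ)) × (W (Fin D.n) × W (Fin D.n))) => x.1.2 :=
      Computable.snd.comp Computable.fst
    have hj : Computable fun x : (W (Fin D.n) × Fin D.n) ×
        (((ℕ × ℕ) × (ℕ × ℕ)) × (W (Fin D.n) × W (Fin D.n))) => x.2.1.1 :=
      Computable.fst.comp (Computable.fst.comp Computable.snd)
    have hi : Computable fun x : (W (Fin D.n) × Fin D.n) ×
        (((ℕ × ℕ) × (ℕ × ℕ)) × (W (Fin D.n) × W (Fin D.n))) => x.2.1.2 :=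
      Computable.snd.comp (Computable.fst.comp Computable.snd)
    have hy1 : Computable fun x : (W (Fin D.n) × Fin D.n) ×
        (((ℕ × ℕ) × (ℕ × ℕ)) × (W (Fin D.n) × W (Fin D.n))) => x.2.2.1 :=
      Computable.fst.comp (Computable.snd.comp Computable.snd)
    have hy2 : Computable fun x : (W (Fin D.n) × Fin D.n) ×
        (((ℕ × ℕ) × (ℕ × ℕ)) × (W (Fin D.n) × W (Fin D.n))) => x.2.2.2 :=
      Computable.snd.comp (Computable.snd.comp Computable.snd)
    have h1 := bwp.comp (hv.pair hj)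
    have h2 := bwp.comp (hv.pair hi)
    have c1 : ComputablePred fun x : (W (Fin D.n) × Fin D.n) ×
        (((ℕ × ℕ) × (ℕ × ℕ)) × (W (Fin D.n) × W (Fin D.n))) =>
        ¬ (D.β x.1.2 = b ∧ P2 D U b x.1.1 x.1.2) :=
      (comp_pred hR2 Computable.fst).not
    have c3 := comp_pred hW' (app (binv.comp hu) (app h1 (app ((bflt U).comp hy1)
      (app h2 ((bflt U).comp hy2)))))
    have c4 := comp_pred diff_pred hi
    have c5 := (comp_pred hW (app (binv.comp ((bflt (pZ D U b)).comp hy1))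
      ((bflt U).comp hy1))).not
    have c6 := (comp_pred hW (app (binv.comp ((bflt (pZ D U b)).comp hy2))
      ((bflt U).comp hy2))).not
    exact (or_pred c1 (and_pred (comp_pred (block_pred D b) hv)
      (and_pred c3 (and_pred c4 (and_pred c5 c6))))).to_re

end Pool.Agent.H333.BG.R3
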